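import Pool.Agent.Q93.NP.Meas

/-!
# The bulk, uniformly in the base, and the injectivity of near misses
-/

set_option autoImplicit false

namespace Pool.Agent.Q93.NP

open Real Filter Set
open Pool.Agent.H491R3.PE
open Pool.Agent.Q127.NC

variable {a : ℝ}

/-- the bulk, uniformly in `a ≥ 2` -/
theorem bulk_unif (ha2 : 2 ≤ a) {x : ℝ} (hx : 2 ≤ x) :
    (NB a (exp 1) 1 x).Finite ∧
      log x ^ 2 / log a - 40 * log x ≤ ((Bx a (exp 1) 1 x).ncard : ℝ) ∧
      ((NB a (exp 1) 1 x).ncard : ℝ) ≤ log x ^ 2 / log a + 40 * log x := by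
  classical
  have ha : 1 < a := by linarith
  have hb : 1 < exp 1 := by
    have := Real.add_one_lt_exp (one_ne_zero' ℝ)
    linarith
  have hlog1 : log (exp 1) = 1 := Real.log_exp 1
  have hc : (0 : ℝ) < 1 := one_pos
  have hA : 0 < log a := log_pos ha
  have hA2 : log 2 ≤ log a := Real.log_le_log (by norm_num) ha2
  have hl2 : 0 < log 2 := log_pos (by norm_num)
  have hl2a : 0.69 < log 2 := by have := Real.log_two_gt_d9; linarith
  have hl2b : log 2 < 0.7 := by have := Real.log_two_lt_d9; linarith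
  have hl3 : 0 < log 3 := log_pos (by norm_num)
  have hl3b : log 3 < 1.4 := by
    have h4 : log 3 < log 4 := Real.log_lt_log (by norm_num) (by norm_num)
    have h5 : log 4 = 2 * log 2 := by
      rw [show (4 : ℝ) = 2 ^ 2 by norm_num, Real.log_pow]; norm_num
    linarith
  obtain ⟨A, hAdef⟩ : ∃ A, A = log a := ⟨_, rfl⟩
  rw [← hAdef] at hA hA2
  have hx0 : 0 < x := by linarith
  have hlx : log 2 ≤ log x := Real.log_le_log (by norm_num) hx
  have hlx0 : 0 < log x := by linarith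
  obtain ⟨L, hLdef⟩ : ∃ L, L = log x := ⟨_, rfl⟩
  rw [← hLdef] at hlx hlx0
  have l2x : log (2 * x) = log 2 + L := by rw [hLdef]; exact Real.log_mul (by norm_num) hx0.ne'
  have l3x : log (3 * x) = log 3 + L := by rw [hLdef]; exact Real.log_mul (by norm_num) hx0.ne'
  have lx2 : log (x ^ 2) = 2 * L := by rw [hLdef, Real.log_pow]; norm_num
  obtain ⟨R1, hR1⟩ : ∃ R1 : Set (ℕ × ℕ), R1 = {p : ℕ × ℕ | a ^ p.1 ≤ 2 * x ∧
    1 * exp 1 ^ p.2 ≤ 3 * x} := ⟨_, rfl⟩
  obtain ⟨R3, hR3⟩ : ∃ R3 : Set (ℕ × ℕ), R3 = {p : ℕ × ℕ | |a ^ p.1 - 1 * exp 1 ^ p.2| ≤ x ∧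
    2 * x < a ^ p.1 ∧ a ^ p.1 ≤ x ^ 2} := ⟨_, rfl⟩
  have r1 := set_count (S := R1) (u := 0) (L := L / A + log 2 / A)
    (L2 := L + log 3) (f := fun _ => 0)
    (by positivity) (by positivity) (by
      intro p hp
      rw [hR1] at hp
      obtain ⟨h1, h2⟩ := hp
      have h5 := (pow_le_iff_log ha (by linarith) p.1).1 h1
      rw [l2x, add_div, ← hAdef] at h5
      have h7 := (mul_pow_le_iff_log hb hc (by linarith) p.2).1 h2
      rw [l3x, Real.log_one, hlog1, div_one, sub_zero] at h7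
      refine ⟨by positivity, by linarith, by positivity, by linarith⟩)
  have r3 := set_count (S := R3) (u := 0) (L := 2 * (L / A)) (L2 := log 3)
    (f := fun n => ((n : ℝ) * log a - log 2 - log 1) / log (exp 1))
    (by positivity) (by positivity) (by
      intro p hp
      rw [hR3] at hp
      obtain ⟨h1, h2, h3⟩ := hp
      have h5 := (pow_le_iff_log ha (by positivity) p.1).1 h3
      rw [lx2, mul_div_assoc, ← hAdef] at h5
      obtain ⟨h6, h7⟩ := m_window' ha hb hc h2 h1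
      rw [hlog1, div_one (log 3)] at h7
      rw [hlog1] at h6
      refine ⟨by positivity, by rw [zero_add]; exact h5, by rw [hlog1]; exact h6,
        by rw [hlog1]; exact h7⟩)
  have hcover : NB a (exp 1) 1 x ⊆ R1 ∪ R3 := by
    rintro p ⟨h1, h2⟩
    rcases le_or_gt (a ^ p.1) (2 * x) with h4 | h4
    · left
      rw [abs_le] at h1
      rw [hR1]
      exact ⟨h4, by linarith [h1.1]⟩
    · right
      rw [hR3]
      exact ⟨h1, h4, h2⟩
  have hfin : (R1 ∪ R3).Finite := r1.1.union r3.1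
  refine ⟨hfin.subset hcover, ?_, ?_⟩
  · refine le_trans ?_ (Bx_lower ha hb hc hx)
    rw [Real.log_one, sub_zero, hlog1, div_one, ← hLdef, ← hAdef]
    have e1 : L / A * L = L ^ 2 / A := by ring
    rw [e1]
    linarith
  · have up : ((NB a (exp 1) 1 x).ncard : ℝ) ≤ R1.ncard + R3.ncard := by
      have u1 := Set.ncard_le_ncard hcover hfin
      have u2 := Set.ncard_union_le R1 R3
      exact_mod_cast u1.trans u2
    have s1 := r1.2
    have s3 := r3.2
    rw [← hLdef, ← hAdef]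
    have i1 : 1 / A ≤ 1.5 := by
      rw [div_le_iff₀ hA]
      nlinarith
    have i2 : log 2 / A ≤ 1 := by
      rw [div_le_one hA]
      exact hA2
    have i3 : L / A = L * (1 / A) := by ring
    have i4 : 0 < 1 / A := by positivity
    have i5 : L ^ 2 / A = L * (L * (1 / A)) := by ring
    have i6 : L * (1 / A) ≤ L * 1.5 := mul_le_mul_of_nonneg_left i1 hlx0.le
    rw [i3] at s1 s3
    rw [i5]
    obtain ⟨y, hy⟩ : ∃ y, y = L * (1 / A) := ⟨_, rfl⟩
    rw [← hy] at s1 s3 i6 ⊢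
    have hy0 : 0 < y := by rw [hy]; positivity
    have j1 : (y + log 2 / A + 1) * (L + log 3 + 1) ≤ (y + 2) * (L + 2.4) :=
      mul_le_mul (by linarith) (by linarith) (by positivity) (by positivity)
    have j2 : (2 * y + 1) * (log 3 + 1) ≤ (2 * y + 1) * 2.4 :=
      mul_le_mul_of_nonneg_left (by linarith) (by positivity)
    have j3 : 1 ≤ L / 0.69 := by
      rw [le_div_iff₀ (by norm_num)]
      linarith
    have e5 : L / 0.69 ≤ 1.5 * L := by
      rw [div_le_iff₀ (by norm_num)]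
      nlinarith
    nlinarith

/-- for `x ≥ 5` there is at most one near miss for every exponent of `a` -/
theorem K_inj (ha2 : 2 ≤ a) {x : ℝ} (hx : 5 ≤ x) {p q : ℕ × ℕ} (hp : p ∈ K a (exp 1) 1 x)
    (hq : q ∈ K a (exp 1) 1 x) (h : p.1 = q.1) : p = q := by
  have ha : 1 < a := by linarith
  have hb : 1 < exp 1 := by
    have := Real.add_one_lt_exp (one_ne_zero' ℝ)
    linarith
  obtain ⟨w1, w2⟩ := K_sub ha hb one_pos (by linarith) hp
  obtain ⟨v1, v2⟩ := K_sub ha hb one_pos (by linarith) hq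
  have h1 := w1.2
  have h2 := v1.2
  rw [Real.log_exp, Real.log_one] at h1 h2
  rw [← h] at h2 v2
  have hS : 5 ≤ √a ^ p.1 := by linarith
  have h3 : 2 / √a ^ p.1 ≤ 2 / 5 := by
    apply div_le_div_of_nonneg_left (by norm_num) (by norm_num) hS
  have h4 : |((p.2 : ℤ) - (q.2 : ℤ) : ℤ)| < (1 : ℤ) := by
    have : |((p.2 : ℝ) - q.2)| < 1 := by
      have e : (p.2 : ℝ) - q.2 = ((p.1 : ℝ) * log a - q.2 * 1 - 0) - ((p.1 : ℝ) * log a - p.2 * 1 - 0) := by
        ring
      rw [e]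
      refine (abs_sub _ _).trans_lt ?_
      linarith
    exact_mod_cast this
  have h5 : (p.2 : ℤ) - (q.2 : ℤ) = 0 := Int.abs_lt_one_iff.1 h4
  exact Prod.ext h (by omega)

/-- many near misses: one of them has a large exponent -/
theorem exists_large (ha2 : 2 ≤ a) {x : ℝ} (hx : 5 ≤ x) {T R : ℝ}
    (hcard : R < (({p | p ∈ K a (exp 1) 1 x ∧ (p.1 : ℝ) ≤ T}.ncard : ℕ) : ℝ)) (hR : 0 ≤ R) :
    ∃ p : ℕ × ℕ, p ∈ K a (exp 1) 1 x ∧ (p.1 : ℝ) ≤ T ∧ R ≤ p.1 := by
  classical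
  by_contra hcon
  push Not at hcon
  obtain ⟨S, hS⟩ : ∃ S : Set (ℕ × ℕ), S = {p | p ∈ K a (exp 1) 1 x ∧ (p.1 : ℝ) ≤ T} := ⟨_, rfl⟩
  rw [← hS] at hcard
  have hfin : S.Finite := by
    apply Set.finite_of_ncard_ne_zero
    intro h0
    rw [h0] at hcard
    push_cast at hcard
    linarith
  have hinj : Set.InjOn Prod.fst S := by
    intro p hp q hq h
    rw [hS] at hp hq
    exact K_inj ha2 hx hp.1 hq.1 h
  have hsub : Prod.fst '' S ⊆ ((Finset.Icc 1 ⌊R⌋₊ : Finset ℕ) : Set ℕ) := by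
    rintro _ ⟨p, hp, rfl⟩
    rw [hS] at hp
    have h1 := hcon p hp.1 hp.2
    rw [Finset.mem_coe, Finset.mem_Icc]
    refine ⟨?_, Nat.le_floor h1.le⟩
    by_contra h0
    have h2 : p.1 = 0 := by omega
    have h3 := hp.1.2
    rw [h2, pow_zero] at h3
    nlinarith
  have h1 : S.ncard ≤ ⌊R⌋₊ := by
    rw [← Set.ncard_image_of_injOn hinj]
    refine (Set.ncard_le_ncard hsub (Finset.finite_toSet _)).trans ?_
    rw [Set.ncard_coe_finset, Nat.card_Icc]
    omega
  have h2 : ((S.ncard : ℕ) : ℝ) ≤ R := (by exact_mod_cast h1 : ((S.ncard : ℕ) : ℝ) ≤ ⌊R⌋₊).trans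
    (Nat.floor_le hR)
  linarith

end Pool.Agent.Q93.NP
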