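import Pool.Agent.Q93.NP.Gap
import Pool.Agent.Q127.NC.Metric

/-!
# The number of exceptional bases
-/

set_option autoImplicit false

namespace Pool.Agent.Q93.NP

open Real Filter Set
open Pool.Agent.H491R3.PE
open Pool.Agent.Q127.NC

/-- iterated exponentials: `y`, `exp (c y)`, `exp (c exp (c y))`, … -/
noncomputable def tow (c y : ℝ) : ℕ → ℝ
  | 0 => y
  | h + 1 => exp (c * tow c y h)

/-- the pairs `(n, m)` with `n ≤ T` and `|A ^ n - e ^ m| ≤ x` -/
def pairs (A x T : ℝ) : Set (ℕ × ℕ) := {p | (p.1 : ℝ) ≤ T ∧ |A ^ p.1 - exp 1 ^ p.2| ≤ x}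

lemma pairs_eq (A x T : ℝ) : pairs A x T = PY A (exp 1) 1 x T := by
  ext p
  simp only [pairs, PY, mem_ofPred_eq, one_mul]

lemma one_lt_e : 1 < exp 1 := by
  have := Real.add_one_lt_exp (one_ne_zero' ℝ)
  linarith

theorem count_fin {q : ℕ} {R₀ : ℝ} (hR₀ : 1 ≤ R₀)
    (hgap : ∀ a : ℝ, 0 < a → ∀ r r' : ℚ, r ≠ r' →
      ∀ p p' : ℕ × ℕ, 2 ≤ base q a r → p ∈ W (base q a r) (exp 1) 1 →
      p' ∈ W (base q a r') (exp 1) 1 → R₀ ≤ p.1 → 1 ≤ p'.1 →
      √(base q a r) ^ p.1 ≤ √(base q a r') ^ p'.1 →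
      |(r.num : ℝ)| ≤ exp (p.1 / 100000) → (r.den : ℝ) ≤ exp (p.1 / 100000) →
      |(r'.num : ℝ)| ≤ exp (p.1 / 100000) → (r'.den : ℝ) ≤ exp (p.1 / 100000) →
      exp (p.1 / 100000) ≤ p'.1) {a : ℝ} (ha : 0 < a) {R : ℝ} (hR : R₀ ≤ R) :
    ∀ (h : ℕ) (F : Finset ℚ), (∀ r ∈ F, |(r.num : ℝ)| ≤ exp (R / 100000) ∧
      (r.den : ℝ) ≤ exp (R / 100000) ∧ 2 ≤ base q a r ∧
      ∃ p ∈ W (base q a r) (exp 1) 1, R ≤ p.1 ∧ (p.1 : ℝ) < tow (1 / 100000) R h) → F.card ≤ h := by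
  classical
  intro h
  induction h with
  | zero =>
    intro F hF
    rw [Nat.le_zero, Finset.card_eq_zero, Finset.eq_empty_iff_forall_notMem]
    intro r hr
    obtain ⟨-, -, -, p, -, h1, h2⟩ := hF r hr
    simp only [tow] at h2
    linarith
  | succ h ih =>
    intro F hF
    obtain ⟨S, hS⟩ : ∃ S : ℚ → Prop, S = fun r => ∃ p ∈ W (base q a r) (exp 1) 1,
      R ≤ p.1 ∧ (p.1 : ℝ) < tow (1 / 100000) R h := ⟨_, rfl⟩
    have h4 := Finset.card_filter_add_card_filter_not (s := F) S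
    have h5 := ih (F.filter S) (by
      intro r hr
      rw [Finset.mem_filter, hS] at hr
      obtain ⟨a1, a2, a3, -⟩ := hF r hr.1
      exact ⟨a1, a2, a3, hr.2⟩)
    have key : ∀ r ∈ F.filter (fun r => ¬ S r), ∀ r' ∈ F.filter (fun r => ¬ S r),
        ∀ p p' : ℕ × ℕ, p ∈ W (base q a r) (exp 1) 1 → R ≤ p.1 →
        p' ∈ W (base q a r') (exp 1) 1 → R ≤ p'.1 → (p'.1 : ℝ) < tow (1 / 100000) R (h + 1) →
        √(base q a r) ^ p.1 ≤ √(base q a r') ^ p'.1 → r = r' := by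
      intro r hr r' hr' p p' hp hRp hp' hRp' hlt hu
      by_contra hne
      rw [Finset.mem_filter, hS] at hr hr'
      obtain ⟨a1, a2, a3, -⟩ := hF r hr.1
      obtain ⟨b1, b2, b3, -⟩ := hF r' hr'.1
      have hge : tow (1 / 100000) R h ≤ p.1 := by
        by_contra hcon
        exact hr.2 ⟨p, hp, hRp, not_le.1 hcon⟩
      have hmon : exp (R / 100000) ≤ exp ((p.1 : ℝ) / 100000) := Real.exp_le_exp.2 (by linarith)
      have h1' : 1 ≤ p'.1 := by
        have : (1 : ℝ) ≤ p'.1 := by linarith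
        exact_mod_cast this
      have h6 := hgap a ha r r' hne p p' a3 hp hp' (by linarith) h1' hu (a1.trans hmon)
        (a2.trans hmon) (b1.trans hmon) (b2.trans hmon)
      have h7 : tow (1 / 100000) R (h + 1) ≤ exp ((p.1 : ℝ) / 100000) := by
        simp only [tow]
        apply Real.exp_le_exp.2
        linarith
      linarith
    have h6 : (F.filter fun r => ¬ S r).card ≤ 1 := by
      rw [Finset.card_le_one]
      intro r hr r' hr'
      obtain ⟨-, -, -, p, p1, p2, p3⟩ := hF r (Finset.mem_filter.1 hr).1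
      obtain ⟨-, -, -, p', q1, q2, q3⟩ := hF r' (Finset.mem_filter.1 hr').1
      rcases le_total (√(base q a r) ^ p.1) (√(base q a r') ^ p'.1) with hu | hu
      · exact key r hr r' hr' p p' p1 p2 q1 q2 q3 hu
      · exact (key r' hr' r hr p' p q1 q2 p1 p2 p3 hu).symm
    omega

/-- **few exceptional bases** -/
theorem few (q : ℕ) (hq : 1 ≤ q) : ∃ R₀ : ℝ, ∀ a : ℝ, 0 < a → ∀ x R : ℝ, 5 ≤ x → R₀ ≤ R →
    ∀ h : ℕ, {r : ℚ | |(r.num : ℝ)| ≤ exp (R / 100000) ∧ (r.den : ℝ) ≤ exp (R / 100000) ∧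
      2 ≤ base q a r ∧ ∃ T : ℝ, 2 * log x ≤ T ∧ T < tow (1 / 100000) R h ∧
        40 * log x + R < |((pairs (base q a r) x T).ncard : ℝ) - log x ^ 2 / log (base q a r)|}.encard
      ≤ h := by
  classical
  obtain ⟨R₀, hR₀, hgap⟩ := gap q hq
  refine ⟨R₀, fun a ha x R hx hR h => ?_⟩
  obtain ⟨S, hS⟩ : ∃ S : Set ℚ, S = {r : ℚ | |(r.num : ℝ)| ≤ exp (R / 100000) ∧
      (r.den : ℝ) ≤ exp (R / 100000) ∧
      2 ≤ base q a r ∧ ∃ T : ℝ, 2 * log x ≤ T ∧ T < tow (1 / 100000) R h ∧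
        40 * log x + R < |((pairs (base q a r) x T).ncard : ℝ) - log x ^ 2 / log (base q a r)|} :=
    ⟨_, rfl⟩
  rw [← hS]
  have hmem : ∀ r ∈ S, |(r.num : ℝ)| ≤ exp (R / 100000) ∧ (r.den : ℝ) ≤ exp (R / 100000) ∧
      2 ≤ base q a r ∧
      ∃ p ∈ W (base q a r) (exp 1) 1, R ≤ p.1 ∧ (p.1 : ℝ) < tow (1 / 100000) R h := by
    intro r hr
    rw [hS] at hr
    obtain ⟨h1, h2, h3, T, h4, h5, h6⟩ := hr
    refine ⟨h1, h2, h3, ?_⟩
    have hx2 : 2 ≤ x := by linarith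
    have hlx : 0 < log x := log_pos (by linarith)
    obtain ⟨b1, b2, b3⟩ := bulk_unif h3 hx2
    have hA : log 2 ≤ log (base q a r) := Real.log_le_log (by norm_num) h3
    have hl2 : 0.69 < log 2 := by have := Real.log_two_gt_d9; linarith
    have hY : log x / log (base q a r) ≤ T := by
      refine le_trans ?_ h4
      rw [div_le_iff₀ (by linarith)]
      nlinarith
    by_contra hcon
    have hcard : (({p | p ∈ K (base q a r) (exp 1) 1 x ∧ (p.1 : ℝ) ≤ T}.ncard : ℕ) : ℝ) ≤ R := by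
      by_contra hc
      obtain ⟨p, p1, p2, p3⟩ := exists_large h3 hx (not_le.1 hc) (by linarith)
      exact hcon ⟨p, (K_sub (by linarith) one_lt_e one_pos hx2 p1).1, p3, p2.trans_lt h5⟩
    have hKfin : {p | p ∈ K (base q a r) (exp 1) 1 x ∧ (p.1 : ℝ) ≤ T}.Finite := by
      refine (W_fin (a := base q a r) (c := 1) one_lt_e ⌊T⌋₊).subset ?_
      rintro p ⟨h7, h8⟩
      exact ⟨(K_sub (by linarith) one_lt_e one_pos hx2 h7).1, Nat.le_floor h8⟩
    have hlog1 : log (base q a r) * log (exp 1) = log (base q a r) := by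
      rw [Real.log_exp, mul_one]
    obtain ⟨-, c2, c3⟩ := assemble (a := base q a r) (b := exp 1) (c := 1) (C := 40) (R := R)
      (by linarith) one_lt_e one_pos hx2 hY b1
      (by rw [hlog1]; exact b2) (by rw [hlog1]; exact b3) hKfin hcard
    rw [hlog1, ← pairs_eq] at c2 c3
    rw [lt_abs] at h6
    rcases h6 with h6 | h6 <;> linarith
  by_contra hcon
  rw [not_le] at hcon
  have h7 : ((h + 1 : ℕ) : ℕ∞) ≤ S.encard := by
    rw [Nat.cast_succ]
    exact Order.add_one_le_of_lt hcon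
  obtain ⟨F, hFS, hFc⟩ := Set.exists_subset_encard_eq h7
  have hFfin : F.Finite := Set.finite_of_encard_eq_coe hFc
  have h8 := count_fin hR₀ hgap ha hR h hFfin.toFinset (by
    intro r hr
    exact hmem r (hFS (by rwa [Set.Finite.mem_toFinset] at hr)))
  rw [hFfin.encard_eq_coe_toFinset_card] at hFc
  have h9 : hFfin.toFinset.card = h + 1 := by exact_mod_cast hFc
  omega

end Pool.Agent.Q93.NP
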