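import Pool.Agent.Q93.NP.Bulk

/-!
# The gap between near misses of different bases
-/

set_option autoImplicit false

namespace Pool.Agent.Q93.NP

open Real Filter Set
open Pool.Agent.H491R3.PE
open Pool.Agent.Q127.NC

/-- the base `(1 + 1 / q) ^ r a` -/
noncomputable def base (q : ℕ) (a : ℝ) (r : ℚ) : ℝ := (1 + 1 / (q : ℝ)) ^ (r : ℝ) * a

theorem log_base {q : ℕ} {a : ℝ} (ha : 0 < a) (r : ℚ) :
    log (base q a r) = r * log (1 + 1 / (q : ℝ)) + log a := by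
  have h : (0 : ℝ) < 1 + 1 / (q : ℝ) := by positivity
  rw [base, Real.log_mul (by positivity) ha.ne', Real.log_rpow h]

theorem gap_raw {q : ℕ} {c₀ : ℝ} {μ : ℕ} (hc₀ : 0 < c₀)
    (hm : ∀ A B : ℤ, B ≠ 0 → c₀ / |(B : ℝ)| ^ μ ≤ |(A : ℝ) + B * log (1 + 1 / (q : ℝ))|)
    {a : ℝ} (ha : 0 < a) {r r' : ℚ} (hrr : r ≠ r') {H : ℝ} (hH : 1 ≤ H)
    (h1 : |(r.num : ℝ)| ≤ H) (h2 : (r.den : ℝ) ≤ H) (h1' : |(r'.num : ℝ)| ≤ H)
    (h2' : (r'.den : ℝ) ≤ H) {p p' : ℕ × ℕ} (hp : p ∈ W (base q a r) (exp 1) 1)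
    (hp' : p' ∈ W (base q a r') (exp 1) 1) (hn : 1 ≤ p.1) (hn' : 1 ≤ p'.1)
    (hu : √(base q a r) ^ p.1 ≤ √(base q a r') ^ p'.1) :
    c₀ * √(base q a r) ^ p.1 ≤ (4 * H ^ 2 * p.1 * p'.1) ^ (μ + 1) := by
  obtain ⟨n, m⟩ := p
  obtain ⟨n', m'⟩ := p'
  simp only at *
  obtain ⟨w1, w2⟩ := hp
  obtain ⟨v1, v2⟩ := hp'
  simp only at w1 w2 v1 v2
  rw [log_base ha, Real.log_exp, Real.log_one, mul_one, sub_zero] at w2 v2
  obtain ⟨u, hudef⟩ : ∃ u, u = √(base q a r) ^ n := ⟨_, rfl⟩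
  obtain ⟨u', hudef'⟩ : ∃ u', u' = √(base q a r') ^ n' := ⟨_, rfl⟩
  obtain ⟨lam, hlam⟩ : ∃ lam, lam = log (1 + 1 / (q : ℝ)) := ⟨_, rfl⟩
  rw [← hudef] at w1 w2 hu ⊢
  rw [← hudef'] at v1 v2 hu
  rw [← hlam] at w2 v2 hm
  have hu0 : 0 < u := by linarith
  have hu0' : 0 < u' := by linarith
  have hnR : (1 : ℝ) ≤ n := by exact_mod_cast hn
  have hnR' : (1 : ℝ) ≤ n' := by exact_mod_cast hn'
  have hd : (0 : ℝ) < r.den := by exact_mod_cast r.den_pos
  have hd' : (0 : ℝ) < r'.den := by exact_mod_cast r'.den_pos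
  have hne : r.num * r'.den - r'.num * r.den ≠ 0 := by
    intro h0
    apply hrr
    have h3 : r.num * r'.den = r'.num * r.den := by linarith
    have h4 : (r : ℚ) = r.num / r.den := (Rat.num_div_den r).symm
    have h5 : (r' : ℚ) = r'.num / r'.den := (Rat.num_div_den r').symm
    rw [h4, h5, div_eq_div_iff (by exact_mod_cast r.den_nz) (by exact_mod_cast r'.den_nz)]
    exact_mod_cast h3
  obtain ⟨B, hB⟩ : ∃ B : ℤ, B = (n : ℤ) * n' * (r.num * r'.den - r'.num * r.den) := ⟨_, rfl⟩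
  obtain ⟨A, hA⟩ : ∃ A : ℤ, A = -((r.den : ℤ) * r'.den * ((n' : ℤ) * m - n * m')) := ⟨_, rfl⟩
  have hB0 : B ≠ 0 := by
    rw [hB]
    refine mul_ne_zero (mul_ne_zero ?_ ?_) hne
    · exact_mod_cast (by omega : n ≠ 0)
    · exact_mod_cast (by omega : n' ≠ 0)
  have key := hm A B hB0
  have er : (r : ℝ) = r.num / r.den := Rat.cast_def r
  have er' : (r' : ℝ) = r'.num / r'.den := Rat.cast_def r'
  have e1 : (A : ℝ) + B * lam = (r.den * r'.den : ℝ) *
      ((n' : ℝ) * ((n : ℝ) * (r * lam + log a) - m) - n * ((n' : ℝ) * (r' * lam + log a) - m')) := by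
    rw [hA, hB, er, er']
    push_cast
    field_simp
    ring
  have b1 : |(A : ℝ) + B * lam| ≤ H ^ 2 * (4 * n * n' / u) := by
    rw [e1, abs_mul, abs_of_pos (by positivity : (0 : ℝ) < r.den * r'.den)]
    have c1 : (r.den * r'.den : ℝ) ≤ H ^ 2 := by
      rw [sq]
      exact mul_le_mul h2 h2' hd'.le (by linarith)
    refine mul_le_mul c1 ?_ (abs_nonneg _) (by positivity)
    refine (abs_sub _ _).trans ?_
    rw [abs_mul, abs_mul, abs_of_pos (by positivity : (0 : ℝ) < n), abs_of_pos (by positivity : (0 : ℝ) < n')]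
    have d1 : (n' : ℝ) * |(n : ℝ) * (r * lam + log a) - m| ≤ n' * (2 / u) :=
      mul_le_mul_of_nonneg_left w2 (by positivity)
    have d2 : (n : ℝ) * |(n' : ℝ) * (r' * lam + log a) - m'| ≤ n * (2 / u) := by
      refine mul_le_mul_of_nonneg_left (v2.trans ?_) (by positivity)
      exact div_le_div_of_nonneg_left (by norm_num) hu0 hu
    have d3 : (n' : ℝ) * (2 / u) + n * (2 / u) = 2 * (n + n') / u := by ring
    have d4 : 2 * ((n : ℝ) + n') / u ≤ 4 * n * n' / u := by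
      apply div_le_div_of_nonneg_right _ hu0.le
      nlinarith
    linarith
  have b2 : |(B : ℝ)| ≤ 2 * H ^ 2 * n * n' := by
    rw [hB]
    push_cast
    rw [abs_mul, abs_mul, abs_of_pos (by positivity : (0 : ℝ) < n), abs_of_pos (by positivity : (0 : ℝ) < n')]
    have c1 : |(r.num : ℝ) * r'.den - r'.num * r.den| ≤ 2 * H ^ 2 := by
      refine (abs_sub _ _).trans ?_
      rw [abs_mul, abs_mul, abs_of_pos hd, abs_of_pos hd']
      have f1 : |(r.num : ℝ)| * r'.den ≤ H * H := mul_le_mul h1 h2' hd'.le (by linarith)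
      have f2 : |(r'.num : ℝ)| * r.den ≤ H * H := mul_le_mul h1' h2 hd.le (by linarith)
      nlinarith
    have c2 : (n : ℝ) * n' * |(r.num : ℝ) * r'.den - r'.num * r.den| ≤ n * n' * (2 * H ^ 2) :=
      mul_le_mul_of_nonneg_left c1 (by positivity)
    linarith
  have hBpos : 0 < |(B : ℝ)| := by
    rw [abs_pos]
    exact_mod_cast hB0
  have b3 : c₀ / (2 * H ^ 2 * n * n') ^ μ ≤ c₀ / |(B : ℝ)| ^ μ := by
    apply div_le_div_of_nonneg_left hc₀.le (by positivity)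
    exact pow_le_pow_left₀ hBpos.le b2 μ
  have b4 : c₀ / (2 * H ^ 2 * n * n') ^ μ ≤ H ^ 2 * (4 * n * n' / u) :=
    b3.trans (key.trans b1)
  have hH0 : 0 < H := by linarith
  have b5 : H ^ 2 * (4 * n * n' / u) = (4 * H ^ 2 * n * n') / u := by ring
  rw [b5, div_le_div_iff₀ (by positivity) hu0] at b4
  refine b4.trans ?_
  have e3 : (4 * H ^ 2 * (n : ℝ) * n') ^ (μ + 1) = 4 * H ^ 2 * n * n' * (4 * H ^ 2 * n * n') ^ μ := by
    rw [pow_succ]
    ring
  rw [e3]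
  apply mul_le_mul_of_nonneg_left _ (by positivity)
  apply pow_le_pow_left₀ (by positivity)
  nlinarith [(by positivity : (0 : ℝ) < H ^ 2 * n * n')]

/-- near misses of different bases are very far apart -/
theorem gap (q : ℕ) (hq : 1 ≤ q) : ∃ R₀ : ℝ, 1 ≤ R₀ ∧ ∀ a : ℝ, 0 < a → ∀ r r' : ℚ, r ≠ r' →
    ∀ p p' : ℕ × ℕ, 2 ≤ base q a r → p ∈ W (base q a r) (exp 1) 1 →
      p' ∈ W (base q a r') (exp 1) 1 → R₀ ≤ p.1 → 1 ≤ p'.1 →
      √(base q a r) ^ p.1 ≤ √(base q a r') ^ p'.1 →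
      |(r.num : ℝ)| ≤ exp (p.1 / 100000) → (r.den : ℝ) ≤ exp (p.1 / 100000) →
      |(r'.num : ℝ)| ≤ exp (p.1 / 100000) → (r'.den : ℝ) ≤ exp (p.1 / 100000) →
      exp (p.1 / 100000) ≤ p'.1 := by
  obtain ⟨c₀, hc₀, hm⟩ := meas q hq
  have hlim : ∀ᶠ y : ℝ in atTop, log 4 + log y ≤ y / 100000 := by
    have h1 : (fun y : ℝ => log y) =o[atTop] (fun y : ℝ => y) := Real.isLittleO_log_id_atTop
    have h2 := h1.bound (show (0 : ℝ) < 1 / 200000 by norm_num)
    filter_upwards [h2, eventually_ge_atTop (200000 * log 4), eventually_ge_atTop (1 : ℝ)] with y h3 h4 h5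
    rw [Real.norm_of_nonneg (Real.log_nonneg h5), Real.norm_of_nonneg (by linarith : (0 : ℝ) ≤ y)] at h3
    linarith
  obtain ⟨Y, hY⟩ := eventually_atTop.1 hlim
  refine ⟨max (max Y (-(5 * log c₀))) 1, le_max_right _ _, ?_⟩
  intro a ha r r' hrr p p' hA2 hp hp' hR hn' hu k1 k2 k3 k4
  have hR1 : (1 : ℝ) ≤ p.1 := (le_max_right _ _).trans hR
  have hR2 : Y ≤ (p.1 : ℝ) := ((le_max_left _ _).trans (le_max_left _ _)).trans hR
  have hR3 : -(5 * log c₀) ≤ (p.1 : ℝ) := ((le_max_right _ _).trans (le_max_left _ _)).trans hR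
  have hn1 : 1 ≤ p.1 := by exact_mod_cast hR1
  by_contra hcon
  push Not at hcon
  obtain ⟨n, hndef⟩ : ∃ n : ℝ, n = p.1 := ⟨_, rfl⟩
  have hH : (1 : ℝ) ≤ exp (p.1 / 100000) := Real.one_le_exp (by positivity)
  have h := gap_raw hc₀ hm ha hrr hH k1 k2 k3 k4 hp hp' hn1 hn' hu
  obtain ⟨M, hM⟩ : ∃ M : ℕ, M = 3000 + 1 := ⟨_, rfl⟩
  rw [← hM] at h
  have hn'R : (1 : ℝ) ≤ p'.1 := by exact_mod_cast hn'
  have h2 : (4 * exp (p.1 / 100000) ^ 2 * (p.1 : ℝ) * p'.1) ^ M ≤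
      (exp (p.1 / 100000) ^ 4) ^ M := by
    apply pow_le_pow_left₀ (by positivity)
    have h3 := hY p.1 hR2
    have h4 : 4 * (p.1 : ℝ) ≤ exp (p.1 / 100000) := by
      rw [← Real.log_le_iff_le_exp (by positivity), Real.log_mul (by norm_num) (by positivity)]
      exact h3
    calc 4 * exp (p.1 / 100000) ^ 2 * (p.1 : ℝ) * p'.1 = exp (p.1 / 100000) ^ 2 * (4 * (p.1 : ℝ)) * p'.1 := by ring
      _ ≤ exp (p.1 / 100000) ^ 2 * exp (p.1 / 100000) * exp (p.1 / 100000) := by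
          apply mul_le_mul _ hcon.le (by positivity) (by positivity)
          exact mul_le_mul_of_nonneg_left h4 (by positivity)
      _ = _ := by ring
  have h5 := h.trans h2
  have hu0 : 0 < √(base q a r) ^ p.1 := by
    have := Real.sqrt_pos.2 (by linarith : 0 < base q a r)
    positivity
  have h6 := Real.log_le_log (by positivity) h5
  rw [Real.log_mul hc₀.ne' hu0.ne', Real.log_pow, Real.log_pow, Real.log_pow, Real.log_exp,
    Real.log_sqrt (by linarith)] at h6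
  have h7 : log 2 ≤ log (base q a r) := Real.log_le_log (by norm_num) hA2
  have h8 : 0.69 < log 2 := by have := Real.log_two_gt_d9; linarith
  have h9 : (p.1 : ℝ) * (0.69 / 2) ≤ p.1 * (log (base q a r) / 2) := by
    apply mul_le_mul_of_nonneg_left _ (by positivity)
    linarith
  have hMR : (M : ℝ) = 3001 := by rw [hM]; norm_num
  rw [hMR] at h6
  push_cast at h6
  linarith

end Pool.Agent.Q93.NP
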