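import Pool.Agent.Q93.NP.Sharp

/-!
# For generic `a`, any number of bases fail simultaneously
-/

set_option autoImplicit false

namespace Pool.Agent.Q93.NP

open Real Filter Set Topology
open Pool.Agent.H491R3.PE
open Pool.Agent.Q127.NC

lemma tow_le_succ (y : ℝ) (j : ℕ) : tow 1 y j ≤ tow 1 y (j + 1) := by
  simp only [tow, one_mul]
  have := Real.add_one_le_exp (tow 1 y j)
  linarith

lemma tow_mono (y : ℝ) : Monotone (tow 1 y) := monotone_nat_of_le_succ (tow_le_succ y)

/-- the pairs found by `nest` -/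
lemma many {A θ l x T : ℝ} {G n m : ℕ} (hA : 1 < A) (hlog : log A = θ + l) (hn : 1 ≤ n)
    (hx : 1 ≤ x) (hT : (G * n : ℝ) ≤ T)
    (h : ∀ g : ℕ, g ≤ G → |exp (g * n * (θ + l)) - exp (g * m)| ≤ 1) :
    (G : ℝ) ≤ ((pairs A x T).ncard : ℝ) := by
  classical
  obtain ⟨F, hF⟩ : ∃ F : Finset (ℕ × ℕ), F = (Finset.range G).image fun g => (g * n, g * m) :=
    ⟨_, rfl⟩
  have hFcard : F.card = G := by
    rw [hF, Finset.card_image_of_injective, Finset.card_range]
    intro k k' hkk
    have h4 : k * n = k' * n := (Prod.ext_iff.1 hkk).1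
    exact Nat.eq_of_mul_eq_mul_right (by omega) h4
  have hFsub : (F : Set (ℕ × ℕ)) ⊆ pairs A x T := by
    intro w hw
    rw [Finset.mem_coe, hF, Finset.mem_image] at hw
    obtain ⟨g, hg, rfl⟩ := hw
    rw [Finset.mem_range] at hg
    have hgG : (g : ℝ) ≤ G := by exact_mod_cast hg.le
    refine ⟨?_, ?_⟩
    · show ((g * n : ℕ) : ℝ) ≤ T
      push_cast
      exact (mul_le_mul_of_nonneg_right hgG (Nat.cast_nonneg n)).trans hT
    · show |A ^ (g * n) - exp 1 ^ (g * m)| ≤ x
      have e1 : A ^ (g * n) = exp (g * n * (θ + l)) := by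
        rw [← hlog, ← Real.exp_log (show 0 < A ^ (g * n) by positivity), Real.log_pow]
        push_cast
        rfl
      have e2 : exp 1 ^ (g * m) = exp (g * m) := by
        rw [← Real.exp_nat_mul]
        push_cast
        ring_nf
      rw [e1, e2]
      exact (h g hg.le).trans hx
  have hfin : (pairs A x T).Finite := by
    rw [pairs_eq]
    exact PY_finite hA one_lt_e one_pos x T
  have h3 := Set.ncard_le_ncard hFsub hfin
  rw [Set.ncard_coe_finset, hFcard] at h3
  exact_mod_cast h3

lemma continuous_base (q : ℕ) (r : ℚ) : Continuous fun a : ℝ => base q a r := by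
  unfold base
  exact continuous_const.mul continuous_id

/-- **generic simultaneous failure** -/
theorem generic (q : ℕ) (Y : ℝ → ℝ)
    (hY : Tendsto (fun x : ℝ => Y x / log x ^ 2) atTop atTop) :
    ∀ᶠ a in residual ℝ, 0 < a → ∀ (h : ℕ) (r : Fin (h + 1) → ℚ),
      (∀ j, 1 < base q a (r j)) → ∀ K : ℝ, ∃ᶠ x in atTop, ∀ j,
        K * log x ^ 2 ≤ ((pairs (base q a (r j)) x (tow 1 (Y x) h)).ncard : ℝ) := by
  classical
  have key : ∀ (h : ℕ) (r : Fin (h + 1) → ℚ) (K X : ℕ),
      ∀ᶠ a in residual ℝ, 0 < a → (∀ j, 1 < base q a (r j)) → ∃ x : ℝ, (X : ℝ) ≤ x ∧ ∀ j,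
        K * log x ^ 2 ≤ ((pairs (base q a (r j)) x (tow 1 (Y x) h)).ncard : ℝ) := by
    intro h r K X
    obtain ⟨S, hS⟩ : ∃ S : Set ℝ, S = {a : ℝ | 0 < a → (∀ j, 1 < base q a (r j)) →
      ∃ x : ℝ, (X : ℝ) ≤ x ∧ ∀ j,
        K * log x ^ 2 ≤ ((pairs (base q a (r j)) x (tow 1 (Y x) h)).ncard : ℝ)} := ⟨_, rfl⟩
    suffices hS' : S ∈ residual ℝ by
      rw [hS] at hS'
      exact hS'
    obtain ⟨V, hV⟩ : ∃ V : Set ℝ, V = {a : ℝ | 0 < a} ∩ ⋂ j, {a : ℝ | 1 < base q a (r j)} :=
      ⟨_, rfl⟩
    have hVo : IsOpen V := by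
      rw [hV]
      refine (isOpen_lt continuous_const continuous_id).inter (isOpen_iInter_of_finite fun j => ?_)
      exact isOpen_lt continuous_const (continuous_base q (r j))
    have hVS : Vᶜ ⊆ S := by
      intro a ha
      rw [hS]
      intro h1 h2
      exact absurd (by rw [hV]; exact ⟨h1, mem_iInter.2 h2⟩) ha
    -- every open set contains an open set inside `S`
    have hden : ∀ O : Set ℝ, IsOpen O → O.Nonempty → ∃ I : Set ℝ, IsOpen I ∧ I.Nonempty ∧
        I ⊆ O ∧ I ⊆ S := by
      intro O hO hne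
      by_cases hOV : (O ∩ V).Nonempty
      · obtain ⟨a₀, haO, haV⟩ := hOV
        have ha₀ : 0 < a₀ ∧ ∀ j, 1 < base q a₀ (r j) := by
          rw [hV] at haV
          exact ⟨haV.1, mem_iInter.1 haV.2⟩
        obtain ⟨θ₀, hθ₀⟩ : ∃ θ₀ : ℝ, θ₀ = log a₀ := ⟨_, rfl⟩
        have hexp : exp θ₀ = a₀ := by rw [hθ₀, Real.exp_log ha₀.1]
        have hnb : exp ⁻¹' (O ∩ V) ∈ 𝓝 θ₀ := by
          apply Real.continuous_exp.continuousAt.preimage_mem_nhds
          rw [hexp]
          exact (hO.inter hVo).mem_nhds ⟨haO, haV⟩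
        obtain ⟨ε, hε, hball⟩ := Metric.mem_nhds_iff.1 hnb
        obtain ⟨lam, hlam⟩ : ∃ lam : ℕ → ℝ, lam = fun j : ℕ =>
          if hj : j < h + 1 then (r ⟨j, hj⟩ : ℝ) * log (1 + 1 / (q : ℝ)) else 0 := ⟨_, rfl⟩
        have hlj : ∀ (j : ℕ) (hj : j < h + 1),
            lam j = (r ⟨j, hj⟩ : ℝ) * log (1 + 1 / (q : ℝ)) := by
          intro j hj
          rw [hlam]
          simp only
          rw [dif_pos hj]
        have hpos : ∀ j, j ≤ h → 0 < θ₀ + lam j := by
          intro j hj
          have h1 := Real.log_pos (ha₀.2 ⟨j, by omega⟩)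
          rw [log_base ha₀.1] at h1
          rw [hlj j (by omega), hθ₀]
          linarith
        obtain ⟨Θ, hΘ⟩ : ∃ Θ : ℝ, Θ = 2 + ∑ j ∈ Finset.range (h + 1), |θ₀ + ε / 2 + lam j + 1| :=
          ⟨_, rfl⟩
        have hΘ2 : 2 ≤ Θ := by
          rw [hΘ]
          have : 0 ≤ ∑ j ∈ Finset.range (h + 1), |θ₀ + ε / 2 + lam j + 1| :=
            Finset.sum_nonneg fun j _ => abs_nonneg _
          linarith
        have hΘj : ∀ j, j ≤ h → θ₀ + ε / 2 + lam j + 1 ≤ Θ := by
          intro j hj
          have h1 : |θ₀ + ε / 2 + lam j + 1| ≤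
              ∑ j ∈ Finset.range (h + 1), |θ₀ + ε / 2 + lam j + 1| :=
            Finset.single_le_sum (f := fun j => |θ₀ + ε / 2 + lam j + 1|)
              (fun j _ => abs_nonneg _) (Finset.mem_range.2 (by omega))
          have h2 := le_abs_self (θ₀ + ε / 2 + lam j + 1)
          rw [hΘ]
          linarith
        -- the choice of `x`
        obtain ⟨D, hD⟩ : ∃ D : ℝ, D = 8 * Θ * (⌈2 / (ε / 2)⌉₊ + 1 : ℕ) := ⟨_, rfl⟩
        have hD0 : 16 ≤ D := by
          rw [hD]
          have : (1 : ℝ) ≤ (⌈2 / (ε / 2)⌉₊ + 1 : ℕ) := by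
            push_cast
            have : (0 : ℝ) ≤ (⌈2 / (ε / 2)⌉₊ : ℝ) := Nat.cast_nonneg _
            linarith
          nlinarith
        have hxe : ∃ x : ℝ, (X : ℝ) ≤ x ∧ 3 ≤ x ∧ D * (K + 2) * log x ^ 2 ≤ Y x ∧
            16 * Θ ≤ exp (Y x / 2) ∧ 0 ≤ Y x := by
          have hL : Tendsto (fun x : ℝ => log x ^ 2) atTop atTop :=
            (tendsto_pow_atTop (two_ne_zero)).comp Real.tendsto_log_atTop
          have hYt : Tendsto Y atTop atTop := by
            refine tendsto_atTop_mono' atTop ?_ hL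
            filter_upwards [hY.eventually_ge_atTop 1, eventually_ge_atTop (3 : ℝ)] with x h1 h2
            have h3 : 0 < log x ^ 2 := by
              have := Real.log_pos (show (1 : ℝ) < x by linarith)
              positivity
            rwa [le_div_iff₀ h3, one_mul] at h1
          have hE : Tendsto (fun x : ℝ => exp (Y x / 2)) atTop atTop :=
            Real.tendsto_exp_atTop.comp (hYt.atTop_div_const (by norm_num))
          obtain ⟨x, h1, h2, h3, h4, h5⟩ := ((hY.eventually_ge_atTop (D * (K + 2))).and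
            ((eventually_ge_atTop (X : ℝ)).and ((eventually_ge_atTop (3 : ℝ)).and
            ((hE.eventually_ge_atTop (16 * Θ)).and (hYt.eventually_ge_atTop 0))))).exists
          refine ⟨x, h2, h3, ?_, h4, h5⟩
          have h6 : 0 < log x ^ 2 := by
            have := Real.log_pos (show (1 : ℝ) < x by linarith)
            positivity
          rwa [le_div_iff₀ h6] at h1
        obtain ⟨x, hx1, hx2, hx3, hx4, hx5⟩ := hxe
        obtain ⟨L, hLdef⟩ : ∃ L : ℝ, L = log x ^ 2 := ⟨_, rfl⟩
        have hL1 : 1 ≤ L := by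
          have h1 : 1 ≤ log x := by
            rw [Real.le_log_iff_exp_le (by linarith)]
            have := Real.exp_one_lt_d9
            linarith
          rw [hLdef]
          nlinarith
        obtain ⟨G, hG⟩ : ∃ G : ℕ, G = ⌈(K : ℝ) * L⌉₊ + 1 := ⟨_, rfl⟩
        have hG1 : 1 ≤ G := by omega
        have hGK : (K : ℝ) * L ≤ G := by
          rw [hG]
          push_cast
          have := Nat.le_ceil ((K : ℝ) * L)
          linarith
        have hGu : (G : ℝ) ≤ (K + 2) * L := by
          rw [hG]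
          push_cast
          have := (Nat.ceil_lt_add_one (show (0 : ℝ) ≤ K * L by positivity)).le
          linarith
        have hbig : 8 * Θ * (G * (⌈2 / (ε / 2)⌉₊ + 1 : ℕ)) ≤ Y x := by
          calc 8 * Θ * (G * (⌈2 / (ε / 2)⌉₊ + 1 : ℕ)) = D * G := by
                rw [hD]
                ring
            _ ≤ D * ((K + 2) * L) := mul_le_mul_of_nonneg_left hGu (by linarith)
            _ = D * (K + 2) * log x ^ 2 := by
                rw [hLdef]
                ring
            _ ≤ Y x := hx3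
        obtain ⟨θ₁, δ₁, hδ₁, hθ₁, hθδ, hnest⟩ := nest hΘ2 hG1 h lam θ₀ (ε / 2) (Y x)
          (by linarith) hpos hΘj hx4 hx5 hbig
        refine ⟨Ioo (exp θ₁) (exp (θ₁ + δ₁)), isOpen_Ioo,
          nonempty_Ioo.2 (Real.exp_lt_exp.2 (by linarith)), ?_, ?_⟩
        · intro a ha
          have ha0 : 0 < a := (Real.exp_pos _).trans ha.1
          have h1 : θ₁ < log a := (Real.lt_log_iff_exp_lt ha0).2 ha.1
          have h2 : log a < θ₁ + δ₁ := (Real.log_lt_iff_lt_exp ha0).2 ha.2
          have h3 : log a ∈ Metric.ball θ₀ ε := by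
            rw [Metric.mem_ball, Real.dist_eq, abs_lt]
            constructor <;> linarith
          have h4 := hball h3
          rw [mem_preimage, Real.exp_log ha0] at h4
          exact h4.1
        · intro a ha
          have ha0 : 0 < a := (Real.exp_pos _).trans ha.1
          have h1 : θ₁ < log a := (Real.lt_log_iff_exp_lt ha0).2 ha.1
          have h2 : log a < θ₁ + δ₁ := (Real.log_lt_iff_lt_exp ha0).2 ha.2
          rw [hS]
          intro _ hbase
          refine ⟨x, hx1, fun j => ?_⟩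
          obtain ⟨n, m, hn, hnT, hfun⟩ := hnest j (by have := j.2; omega)
          have hl : log (base q a (r j)) = log a + lam j := by
            rw [log_base ha0, hlj j j.2]
            ring
          have h5 := many (hbase j) hl hn (by linarith : 1 ≤ x)
            (hnT.trans (tow_mono (Y x) (by have := j.2; omega : (j : ℕ) ≤ h)))
            (fun g hg => hfun (log a) h1.le h2.le g hg)
          rw [← hLdef]
          exact hGK.trans h5
      · rw [Set.not_nonempty_iff_eq_empty] at hOV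
        refine ⟨O, hO, hne, Subset.rfl, fun a ha => hVS fun haV => ?_⟩
        have : a ∈ O ∩ V := ⟨ha, haV⟩
        rw [hOV] at this
        exact this
    have hdense : Dense (interior S) := by
      rw [dense_iff_inter_open]
      intro O hO hne
      obtain ⟨I, hI, ⟨a, ha⟩, hIO, hIS⟩ := hden O hO hne
      exact ⟨a, hIO ha, interior_maximal hIS hI ha⟩
    exact mem_of_superset (residual_of_dense_open isOpen_interior hdense) interior_subset
  have hres : ∀ᶠ a in residual ℝ, ∀ (h : ℕ) (r : Fin (h + 1) → ℚ) (K X : ℕ), 0 < a →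
      (∀ j, 1 < base q a (r j)) → ∃ x : ℝ, (X : ℝ) ≤ x ∧ ∀ j,
        K * log x ^ 2 ≤ ((pairs (base q a (r j)) x (tow 1 (Y x) h)).ncard : ℝ) := by
    rw [eventually_countable_forall]
    intro h
    rw [eventually_countable_forall]
    intro r
    rw [eventually_countable_forall]
    intro K
    rw [eventually_countable_forall]
    intro X
    exact key h r K X
  filter_upwards [hres] with a ha ha0 h r hr K
  rw [frequently_atTop]
  intro x₀
  obtain ⟨K', hK'⟩ := exists_nat_ge K
  obtain ⟨X, hX⟩ := exists_nat_ge x₀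
  obtain ⟨x, hx, hj⟩ := ha h r K' X ha0 hr
  refine ⟨x, hX.trans hx, fun j => le_trans ?_ (hj j)⟩
  exact mul_le_mul_of_nonneg_right hK' (sq_nonneg _)

end Pool.Agent.Q93.NP
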