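import Pool.Agent.Q127.NC.Dio
import Pool.Agent.TH50.DQ.MeasH

/-!
# Irrationality measures of the logarithms of `1 + 1 / q`, and the gap between near misses
-/

set_option autoImplicit false

namespace Pool.Agent.Q93.NP

open Real Filter Set Topology
open Pool.Agent.H491R3.PE
open Pool.Agent.Q127.NC

/-- the irrationality measure of `log (1 + 1 / q)` -/
theorem meas (q : ℕ) (hq : 1 ≤ q) : ∃ c₀ : ℝ, 0 < c₀ ∧ ∀ A B : ℤ, B ≠ 0 →
    c₀ / |(B : ℝ)| ^ 3000 ≤ |(A : ℝ) + B * log (1 + 1 / (q : ℝ))| := by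
  rcases Nat.eq_or_lt_of_le hq with h1 | h1
  · subst h1
    obtain ⟨c, hc, h⟩ := Pool.Agent.TH50.DQ.MeaT.measure_two
    refine ⟨c, hc, fun A B hB => ?_⟩
    have h2 := h B 0 A (Or.inl hB)
    have e : (1 : ℝ) + 1 / ((1 : ℕ) : ℝ) = 2 := by norm_num
    rw [e]
    rw [Int.cast_zero, abs_zero, max_eq_left (abs_nonneg _), zero_mul, add_zero] at h2
    exact h2
  · obtain ⟨c, hc, h⟩ := Pool.Agent.TH50.DQ.Mea.measure_all (Q := (q : ℤ) + 1) (Or.inl (by omega))
    refine ⟨c, hc, fun A B hB => ?_⟩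
    have h2 := h (-B) 0 A (Or.inl (neg_ne_zero.2 hB))
    have hq0 : (0 : ℝ) < q := by exact_mod_cast (by omega : 0 < q)
    have e : log (1 - 1 / (((q : ℤ) + 1 : ℤ) : ℝ)) = -log (1 + 1 / (q : ℝ)) := by
      rw [← Real.log_inv]
      congr 1
      push_cast
      field_simp
      ring
    rw [e, Int.cast_zero, abs_zero, max_eq_left (abs_nonneg _), zero_mul, add_zero] at h2
    push_cast at h2
    rw [abs_neg] at h2
    have hB1 : (1 : ℝ) ≤ |(B : ℝ)| := by
      have := Int.one_le_abs hB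
      exact_mod_cast this
    have h3 : c / |(B : ℝ)| ^ 3000 ≤ c / |(B : ℝ)| ^ 1000 := by
      apply div_le_div_of_nonneg_left hc.le (by positivity)
      exact pow_le_pow_right₀ hB1 (by norm_num)
    refine h3.trans (h2.trans (le_of_eq ?_))
    congr 1
    ring

end Pool.Agent.Q93.NP
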