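import Pool.Agent.Q93.NP.Count

/-!
# Sharpness: several exceptional bases
-/

set_option autoImplicit false

namespace Pool.Agent.Q93.NP

open Real Filter Set Topology

lemma tow_succ (y : ℝ) (j : ℕ) : tow 1 (exp y) j = tow 1 y (j + 1) := by
  induction j with
  | zero => simp [tow]
  | succ j ih => simp only [tow] at ih ⊢; rw [ih]

/-- one step: all multiples of a good approximation -/
lemma step {θ₀ δ l Θ : ℝ} {G : ℕ} (hδ : 0 < δ) (hl : 0 < θ₀ + l) (hΘ : 2 ≤ Θ)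
    (hb : θ₀ + δ + l + 1 ≤ Θ) (hG : 1 ≤ G) :
    ∃ (n m : ℕ) (θ₁ δ₁ : ℝ), 1 ≤ n ∧ n = ⌈2 / δ⌉₊ + 1 ∧ δ₁ = exp (-(2 * G * n * Θ)) ∧ θ₀ ≤ θ₁ ∧
      θ₁ + δ₁ ≤ θ₀ + δ ∧ ∀ θ : ℝ, θ₁ ≤ θ → θ ≤ θ₁ + δ₁ → ∀ g : ℕ, g ≤ G →
        |exp (g * n * (θ + l)) - exp (g * m)| ≤ 1 := by
  obtain ⟨n, hn⟩ : ∃ n : ℕ, n = ⌈2 / δ⌉₊ + 1 := ⟨_, rfl⟩
  have hn1 : 1 ≤ n := by omega
  have hnR : (1 : ℝ) ≤ n := by exact_mod_cast hn1
  have hn2 : 2 / δ < n := by
    rw [hn]
    push_cast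
    have := Nat.le_ceil (2 / δ)
    linarith
  obtain ⟨m, hm⟩ : ∃ m : ℕ, m = ⌈(n : ℝ) * (θ₀ + l)⌉₊ := ⟨_, rfl⟩
  have hpos : 0 < (n : ℝ) * (θ₀ + l) := by positivity
  have m1 : (n : ℝ) * (θ₀ + l) ≤ m := by rw [hm]; exact Nat.le_ceil _
  have m2 : (m : ℝ) < (n : ℝ) * (θ₀ + l) + 1 := by rw [hm]; exact Nat.ceil_lt_add_one hpos.le
  obtain ⟨θ₁, hθ₁⟩ : ∃ θ₁ : ℝ, θ₁ = m / n - l := ⟨_, rfl⟩
  have hn0 : (0 : ℝ) < n := by linarith
  have t1 : θ₀ ≤ θ₁ := by
    have : θ₀ + l ≤ m / n := by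
      rw [le_div_iff₀ hn0]
      linarith
    linarith
  have hinv : 1 / (n : ℝ) < δ / 2 := by
    rw [div_lt_div_iff₀ hn0 (by norm_num)]
    rw [div_lt_iff₀ hδ] at hn2
    linarith
  have t2 : θ₁ < θ₀ + δ / 2 := by
    have : (m : ℝ) / n < θ₀ + l + 1 / n := by
      rw [div_lt_iff₀ hn0, add_mul, one_div, inv_mul_cancel₀ hn0.ne']
      linarith
    linarith
  have hGR : (1 : ℝ) ≤ G := by exact_mod_cast hG
  obtain ⟨y, hy⟩ : ∃ y : ℝ, y = G * n * Θ := ⟨_, rfl⟩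
  have hGn : (n : ℝ) ≤ G * n := by nlinarith
  have hGn1 : (1 : ℝ) ≤ G * n := by linarith
  have hy1 : 2 * (G * n : ℝ) ≤ y := by
    rw [hy]
    nlinarith
  obtain ⟨δ₁, hδ₁⟩ : ∃ δ₁ : ℝ, δ₁ = exp (-(2 * G * n * Θ)) := ⟨_, rfl⟩
  have hδ₁' : δ₁ = exp (-(2 * y)) := by
    rw [hδ₁, hy]
    congr 1
    ring
  have hδ0 : 0 < δ₁ := by rw [hδ₁]; exact Real.exp_pos _
  have expy : y < exp y := by
    have := Real.add_one_le_exp y
    linarith
  have hδ₁n : δ₁ * (2 * (G * n)) * exp y ≤ 1 := by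
    have e : exp (-(2 * y)) * exp y * exp y = 1 := by
      rw [← Real.exp_add, ← Real.exp_add]
      simp only [Real.exp_eq_one_iff]
      ring
    rw [hδ₁']
    calc exp (-(2 * y)) * (2 * (G * n)) * exp y ≤ exp (-(2 * y)) * exp y * exp y := by
          apply mul_le_mul_of_nonneg_right _ (Real.exp_pos _).le
          exact mul_le_mul_of_nonneg_left (by linarith) (Real.exp_pos _).le
      _ = 1 := e
  have hδ₁s : δ₁ ≤ δ / 2 := by
    have h1 : 1 ≤ exp y := Real.one_le_exp (by linarith)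
    have h2 : δ₁ * (2 * (G * n)) ≤ 1 := by
      refine le_trans ?_ hδ₁n
      exact le_mul_of_one_le_right (by positivity) h1
    have h3 : δ₁ * n ≤ 1 := by nlinarith
    have h4 : δ₁ ≤ 1 / n := by
      rw [le_div_iff₀ hn0]
      exact h3
    linarith
  refine ⟨n, m, θ₁, δ₁, hn1, hn, hδ₁, t1, by linarith, fun θ h1 h2 g hg => ?_⟩
  have hgR : (g : ℝ) ≤ G := by exact_mod_cast hg
  have hg0 : (0 : ℝ) ≤ g := Nat.cast_nonneg g
  obtain ⟨z, hz⟩ : ∃ z : ℝ, z = g * n * (θ - θ₁) := ⟨_, rfl⟩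
  have e1 : (g : ℝ) * n * (θ + l) = g * m + z := by
    rw [hz, hθ₁]
    field_simp
    ring
  have hz0 : 0 ≤ z := by
    rw [hz]
    have : 0 ≤ θ - θ₁ := by linarith
    positivity
  have hz1 : z ≤ G * n * δ₁ := by
    rw [hz]
    apply mul_le_mul _ (by linarith) (by linarith) (by positivity)
    exact mul_le_mul_of_nonneg_right hgR hn0.le
  have hz2 : z ≤ 1 := by
    have h1 : 1 ≤ exp y := Real.one_le_exp (by linarith)
    have h2 : δ₁ * (2 * (G * n)) ≤ 1 := by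
      refine le_trans ?_ hδ₁n
      exact le_mul_of_one_le_right (by positivity) h1
    linarith
  have hgm : (g : ℝ) * m ≤ y := by
    have h3 : (m : ℝ) ≤ n * Θ := by
      have : (n : ℝ) * (θ₀ + l) + 1 ≤ n * (θ₀ + l + 1) := by linarith
      have h5 : (n : ℝ) * (θ₀ + l + 1) ≤ n * Θ := mul_le_mul_of_nonneg_left (by linarith) hn0.le
      linarith
    rw [hy, mul_assoc]
    exact mul_le_mul hgR h3 (Nat.cast_nonneg _) (by linarith)
  rw [e1, Real.exp_add]
  have e2 : exp ((g : ℝ) * m) * exp z - exp (g * m) = exp (g * m) * (exp z - 1) := by ring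
  have hez : 0 ≤ exp z - 1 := by
    have := Real.one_le_exp hz0
    linarith
  rw [e2, abs_of_nonneg (mul_nonneg (Real.exp_pos _).le hez)]
  have hez2 : exp z - 1 ≤ 2 * z := by
    have := Real.abs_exp_sub_one_le (x := z) (by rw [abs_of_nonneg hz0]; exact hz2)
    rw [abs_of_nonneg hez, abs_of_nonneg hz0] at this
    exact this
  calc exp ((g : ℝ) * m) * (exp z - 1) ≤ exp y * (2 * (G * n * δ₁)) := by
        apply mul_le_mul (Real.exp_le_exp.2 hgm) (by linarith) hez (Real.exp_pos _).le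
    _ = δ₁ * (2 * (G * n)) * exp y := by ring
    _ ≤ 1 := hδ₁n

/-- nested good approximations for several multipliers -/
lemma nest {Θ : ℝ} {G : ℕ} (hΘ : 2 ≤ Θ) (hG : 1 ≤ G) : ∀ (h : ℕ) (l : ℕ → ℝ) (θ₀ δ Y : ℝ),
    0 < δ → (∀ j, j ≤ h → 0 < θ₀ + l j) → (∀ j, j ≤ h → θ₀ + δ + l j + 1 ≤ Θ) →
    16 * Θ ≤ exp (Y / 2) → 0 ≤ Y → 8 * Θ * (G * (⌈2 / δ⌉₊ + 1 : ℕ)) ≤ Y →
    ∃ θ₁ δ₁ : ℝ, 0 < δ₁ ∧ θ₀ ≤ θ₁ ∧ θ₁ + δ₁ ≤ θ₀ + δ ∧ ∀ j, j ≤ h → ∃ n m : ℕ, 1 ≤ n ∧
      (G * n : ℝ) ≤ tow 1 Y j ∧ ∀ θ : ℝ, θ₁ ≤ θ → θ ≤ θ₁ + δ₁ → ∀ g : ℕ, g ≤ G →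
        |exp (g * n * (θ + l j)) - exp (g * m)| ≤ 1 := by
  intro h
  induction h with
  | zero =>
    intro l θ₀ δ Y hδ h1 h2 h3 hY h4
    obtain ⟨n, m, θ₁, δ₁, s1, s2, s3, s4, s5, s6⟩ := step hδ (h1 0 le_rfl) hΘ (h2 0 le_rfl) hG
    refine ⟨θ₁, δ₁, by rw [s3]; exact Real.exp_pos _, s4, s5, fun j hj => ?_⟩
    obtain rfl : j = 0 := by omega
    refine ⟨n, m, s1, ?_, s6⟩
    simp only [tow]
    rw [← s2] at h4
    have : (0 : ℝ) ≤ G * n := by positivity
    nlinarith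
  | succ h ih =>
    intro l θ₀ δ Y hδ h1 h2 h3 hY h4
    obtain ⟨n, m, θ₁, δ₁, s1, s2, s3, s4, s5, s6⟩ := step hδ (h1 0 (by omega)) hΘ (h2 0 (by omega)) hG
    have hδ₁ : 0 < δ₁ := by rw [s3]; exact Real.exp_pos _
    rw [← s2] at h4
    have hGn : (0 : ℝ) ≤ G * n := by positivity
    have hGR : (1 : ℝ) ≤ G := by exact_mod_cast hG
    have hnR : (1 : ℝ) ≤ n := by exact_mod_cast s1
    have hGn1 : (G : ℝ) ≤ G * n := by nlinarith
    have hexpY : 16 * Θ * exp (Y / 2) ≤ exp Y := by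
      have e : exp Y = exp (Y / 2) * exp (Y / 2) := by rw [← Real.exp_add]; ring_nf
      rw [e]
      exact mul_le_mul_of_nonneg_right h3 (Real.exp_pos _).le
    have hc : ((⌈2 / δ₁⌉₊ + 1 : ℕ) : ℝ) ≤ 4 * exp (2 * G * n * Θ) := by
      have e : 2 / δ₁ = 2 * exp (2 * G * n * Θ) := by
        rw [s3, Real.exp_neg]
        field_simp
      have hp : (0 : ℝ) ≤ 2 * G * n * Θ := by positivity
      have h5 := Real.one_le_exp hp
      have h6 := (Nat.ceil_lt_add_one (by positivity : 0 ≤ 2 / δ₁)).le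
      push_cast
      rw [e] at h6 ⊢
      linarith
    obtain ⟨θ₂, δ₂, r1, r2, r3, r4⟩ := ih (fun j => l (j + 1)) θ₁ δ₁ (exp Y) hδ₁
      (fun j hj => by have := h1 (j + 1) (by omega); linarith)
      (fun j hj => by have := h2 (j + 1) (by omega); linarith)
      (by
        refine h3.trans (Real.exp_le_exp.2 ?_)
        have := Real.add_one_le_exp Y
        linarith)
      (Real.exp_pos _).le
      (by
        have h7 : (G : ℝ) ≤ exp (G * n * Θ) := by
          have h8 := Real.add_one_le_exp (G * n * Θ : ℝ)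
          have h9 : (G * n : ℝ) * 1 ≤ G * n * Θ := mul_le_mul_of_nonneg_left (by linarith) hGn
          linarith
        have h10 : 3 * (G * n * Θ : ℝ) ≤ Y / 2 := by nlinarith
        calc 8 * Θ * (G * ((⌈2 / δ₁⌉₊ + 1 : ℕ) : ℝ)) ≤
              8 * Θ * (G * (4 * exp (2 * G * n * Θ))) := by
              apply mul_le_mul_of_nonneg_left _ (by linarith)
              exact mul_le_mul_of_nonneg_left hc (by positivity)
          _ ≤ 8 * Θ * (exp (G * n * Θ) * (4 * exp (2 * G * n * Θ))) := by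
              apply mul_le_mul_of_nonneg_left _ (by linarith)
              exact mul_le_mul_of_nonneg_right h7 (by positivity)
          _ = 32 * Θ * exp (3 * (G * n * Θ)) := by
              have e : exp (3 * (G * n * Θ : ℝ)) = exp (G * n * Θ) * exp (2 * G * n * Θ) := by
                rw [← Real.exp_add]
                congr 1
                ring
              rw [e]
              ring
          _ ≤ exp Y := by
              have h11 : 32 * exp (3 * (G * n * Θ : ℝ)) ≤ 16 * exp (Y / 2) := by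
                have h12 : 6 * (G * n * Θ : ℝ) + 2 ≤ Y := by nlinarith
                have h13 : (2 : ℝ) ≤ exp 1 := by
                  have := Real.add_one_le_exp (1 : ℝ)
                  linarith
                calc 32 * exp (3 * (G * n * Θ : ℝ)) = 16 * (2 * exp (3 * (G * n * Θ : ℝ))) := by ring
                  _ ≤ 16 * (exp 1 * exp (3 * (G * n * Θ : ℝ))) := by
                      apply mul_le_mul_of_nonneg_left _ (by norm_num)
                      exact mul_le_mul_of_nonneg_right h13 (Real.exp_pos _).le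
                  _ = 16 * exp (3 * (G * n * Θ) + 1) := by
                      rw [← Real.exp_add]
                      congr 2
                      ring
                  _ ≤ 16 * exp (Y / 2) := by
                      apply mul_le_mul_of_nonneg_left _ (by norm_num)
                      exact Real.exp_le_exp.2 (by linarith)
              nlinarith)
    refine ⟨θ₂, δ₂, r1, s4.trans r2, r3.trans s5, fun j hj => ?_⟩
    rcases Nat.eq_zero_or_pos j with rfl | hj0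
    · refine ⟨n, m, s1, ?_, fun θ t1 t2 g hg => s6 θ (r2.trans t1) (t2.trans r3) g hg⟩
      simp only [tow]
      nlinarith
    · obtain ⟨i, rfl⟩ : ∃ i, j = i + 1 := ⟨j - 1, by omega⟩
      obtain ⟨n', m', v1, v2, v3⟩ := r4 i (by omega)
      refine ⟨n', m', v1, ?_, v3⟩
      rw [← tow_succ]
      exact v2

end Pool.Agent.Q93.NP
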